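import Pool.Agent.MP_5c28a4_al.H89.Spec

set_option autoImplicit false

namespace Pool.Agent.MP_5c28a4_al.H19

open Pool.Agent.Burnside6 Pool.Agent.MP_5c28a4_al.H89

variable {G G' : Type} [Group G] [Group G']

theorem Q_succ (T : Sys G) (l : T.Λ) (s : ℕ) :
    T.Q l (s + 1) = T.Q l s * T.U ^ T.ex l s * T.J l s := by
  simp only [Sys.Q, Sys.J, Sys.ex, prd_succ, bval, mul_assoc]

theorem Q_succ' (l : Law) (g h : G) (b : Bool) (s : ℕ) :
    (rSys l g h).Q b (s + 1) =
      (rSys l g h).Q b s * (rSys l g h).U ^ (rSys l g h).ex b s * (rSys l g h).J b s :=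
  Q_succ (rSys l g h) b s

theorem map_blk (f : G →* G') (l : Law) (g h : G) (b : Bool) (s : ℕ) :
    f ((rSys l g h).blk b s).1 = ((rSys l (f g) (f h)).blk b s).1 ∧
      ((rSys l g h).blk b s).2.1 = ((rSys l (f g) (f h)).blk b s).2.1 ∧
      f ((rSys l g h).blk b s).2.2 = ((rSys l (f g) (f h)).blk b s).2.2 := by
  cases b
  · refine ⟨?_, rfl, ?_⟩
    · change f (tW g h (hh - 1 - s))⁻¹ = (tW (f g) (f h) (hh - 1 - s))⁻¹
      rw [map_inv, map_tW]
    · change f (1 : G)⁻¹ = (1 : G')⁻¹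
      rw [map_inv, map_one]
  · refine ⟨?_, rfl, ?_⟩
    · exact map_one f
    · exact map_tW f g h s

theorem map_Q (f : G →* G') (l : Law) (g h : G) (b : Bool) (s : ℕ) :
    f ((rSys l g h).Q b s) = (rSys l (f g) (f h)).Q b s := by
  unfold Sys.Q
  rw [map_mul, map_prd, (map_blk f l g h b s).1]
  congr 1
  apply prd_congr
  intro i _
  obtain ⟨a1, a2, a3⟩ := map_blk f l g h b i
  unfold bval
  rw [map_mul, map_mul, map_zpow, a1, a2, a3]
  congr 3
  exact map_VW f l g h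

theorem conj_Q (y : G) (l : Law) (g h : G) (b : Bool) (s : ℕ) :
    (rSys l (y * g * y⁻¹) (y * h * y⁻¹)).Q b s = y * (rSys l g h).Q b s * y⁻¹ :=
  (map_Q (MulAut.conj y).toMonoidHom l g h b s).symm

theorem Q_mem {K : Subgroup G} {g h : G} (hg : g ∈ K) (hh' : h ∈ K) (l : Law) (b : Bool) (s : ℕ) :
    (rSys l g h).Q b s ∈ K := by
  have := map_Q (ev g h) l x0 x1 b s
  rw [ev_x0, ev_x1] at this
  rw [← this]
  exact ev_mem hg hh' _

theorem pat_inv (g h : G) {x y : ℕ} (hxy : (x + y) % 8 = 7) : (pat g h x)⁻¹ = pat g h y := by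
  unfold pat
  split_ifs <;> first | rfl | exact inv_inv _ | omega

theorem pat_congr (g h : G) {x y : ℕ} (hxy : x % 8 = y % 8) : pat g h x = pat g h y := by
  unfold pat; rw [hxy]

theorem ar1 {H a s : ℕ} (e : H = 8 * a + 4) (h1 : 4 ≤ s) (h2 : s + 5 ≤ H) :
    s < 8 * a ∧ H - 1 - (s + 1) < 8 * a ∧ (H - 1 - (s + 1) + (s + 5)) % 8 = 7 := by omega

/-- offset of the pattern -/
def off (b : Bool) : ℕ := if b then 0 else 5

theorem J_eq (l : Law) (g h : G) (b : Bool) {s : ℕ} (h1 : 4 ≤ s) (h2 : s + 5 ≤ hh) :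
    (rSys l g h).J b s = pat g h (s + off b) := by
  obtain ⟨a1, a2, a3⟩ := ar1 hh_eq h1 h2
  cases b
  · change (1 : G)⁻¹ * (tW g h (hh - 1 - (s + 1)))⁻¹ = pat g h (s + 5)
    rw [inv_one, one_mul]
    unfold tW
    rw [if_pos a2]
    exact pat_inv g h a3
  · change tW g h s * 1 = pat g h (s + 0)
    unfold tW
    rw [if_pos a1, mul_one, add_zero]

/-- sign of a letter -/
def sg (b : Bool) : ℤ := if b then 1 else -1

/-- position of a block -/
def pos (H : ℕ) (b : Bool) (s : ℕ) : ℕ := if b then s else H - 1 - s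

theorem ar2 (H n c s i : ℕ) (h2 : s + i < H) :
    -((n + (c + (H - 1 - (s + i)) + 1) ^ 2 : ℕ) : ℤ) =
      -1 * (n + (((c + (H - 1 - s) + 1 : ℕ) : ℤ) + -1 * i) ^ 2) := by
  obtain ⟨k, rfl⟩ : ∃ k, H = s + i + 1 + k := ⟨H - (s + i + 1), by omega⟩
  rw [show s + i + 1 + k - 1 - (s + i) = k by omega, show s + i + 1 + k - 1 - s = i + k by omega]
  push_cast; ring

theorem ar3 (n c s i : ℕ) :
    ((n + (c + (s + i) + 1) ^ 2 : ℕ) : ℤ) = 1 * (n + (((c + s + 1 : ℕ) : ℤ) + 1 * i) ^ 2) := by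
  push_cast; ring

theorem ex_eq (l : Law) (g h : G) (b : Bool) {s i : ℕ} (h2 : s + i < hh) :
    (rSys l g h).ex b (s + i) =
      sg b * (l.n + (((l.code * hh + pos hh b s + 1 : ℕ) : ℤ) + sg b * i) ^ 2) := by
  cases b
  · exact ar2 hh l.n (l.code * hh) s i h2
  · exact ar3 l.n (l.code * hh) s i

theorem ar4 {f f' n n' : ℤ} {A A' : ℕ} {b b' : Bool} (hf : f ≠ 0)
    (e : ∀ i : ℕ, 1 ≤ i → i ≤ 2 →
      f' * (sg b' * (n' + (((A' + 1 : ℕ) : ℤ) + sg b' * i) ^ 2)) -
        f * (sg b * (n + (((A + 1 : ℕ) : ℤ) + sg b * i) ^ 2)) =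
      f' * (sg b' * (n' + (((A' + 1 : ℕ) : ℤ) + sg b' * (i + 8 : ℕ)) ^ 2)) -
        f * (sg b * (n + (((A + 1 : ℕ) : ℤ) + sg b * (i + 8 : ℕ)) ^ 2))) :
    b = b' ∧ f = f' ∧ A = A' := by
  have e1 := e 1 le_rfl (by norm_num)
  have e2 := e 2 (by norm_num) le_rfl
  have p1 : (0 : ℤ) ≤ A := Int.natCast_nonneg A
  have p2 : (0 : ℤ) ≤ A' := Int.natCast_nonneg A'
  cases b <;> cases b' <;> simp only [sg, Bool.false_eq_true, if_true, if_false] at e1 e2 <;>
    push_cast at e1 e2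
  · have h1 : f' = f := by linarith
    subst h1
    have h2 : f' * ((A : ℤ) - A') = 0 := by linarith
    have h3 := (mul_eq_zero.1 h2).resolve_left hf
    exact ⟨rfl, rfl, by omega⟩
  · have h1 : f' = -f := by linarith
    subst h1
    have h2 : f * ((A : ℤ) + A' + 2) = 0 := by linarith
    have h3 := (mul_eq_zero.1 h2).resolve_left hf
    omega
  · have h1 : f' = -f := by linarith
    subst h1
    have h2 : f * ((A : ℤ) + A' + 2) = 0 := by linarith
    have h3 := (mul_eq_zero.1 h2).resolve_left hf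
    omega
  · have h1 : f' = f := by linarith
    subst h1
    have h2 : f' * ((A : ℤ) - A') = 0 := by linarith
    have h3 := (mul_eq_zero.1 h2).resolve_left hf
    exact ⟨rfl, rfl, by omega⟩

theorem ar5 {H c c' s s' : ℕ} {b : Bool} (h1 : s < H) (h2 : s' < H)
    (e : c * H + pos H b s = c' * H + pos H b s') : c = c' ∧ s = s' := by
  have p1 : pos H b s < H := by unfold pos; split_ifs <;> omega
  have p2 : pos H b s' < H := by unfold pos; split_ifs <;> omega
  have e1 : c = c' := by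
    have a1 : (c * H + pos H b s) / H = c := by
      rw [add_comm, Nat.add_mul_div_right _ _ (by omega), Nat.div_eq_of_lt p1, zero_add]
    have a2 : (c' * H + pos H b s') / H = c' := by
      rw [add_comm, Nat.add_mul_div_right _ _ (by omega), Nat.div_eq_of_lt p2, zero_add]
    rw [← a1, e, a2]
  subst e1
  refine ⟨rfl, ?_⟩
  have e2 : pos H b s = pos H b s' := by omega
  unfold pos at e2
  split_ifs at e2 <;> omega

theorem ar6 (x : ℕ) : ∃ i, i ≤ 7 ∧ (x + i) % 8 = 0 := ⟨(8 - x % 8) % 8, by omega, by omega⟩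

theorem pat_g (g h : G) {x : ℕ} (hx : x % 8 < 2) : pat g h x = g := by
  unfold pat; rw [if_pos hx]

theorem pat_h (g h : G) {x : ℕ} (h1 : 2 ≤ x % 8) (h2 : x % 8 < 4) : pat g h x = h := by
  unfold pat; rw [if_neg (by omega), if_pos h2]

theorem up_le {x : ℝ} {B : ℕ} (h1 : x ≤ B) (h2 : cT + 2 ≤ B) :
    2 * x + cT + 2 ≤ ((3 * B : ℕ) : ℝ) := by
  have h3 : ((cT + 2 : ℕ) : ℝ) ≤ B := by exact_mod_cast h2
  push_cast at h3 ⊢
  linarith

theorem big {B : ℕ} (h2 : cT + 2 ≤ B) : 1000 ≤ B := by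
  unfold cT at h2; omega

theorem rrS (AM : AMStmt) (M : MatchStmt) (RS : RSysStmt) : RRStmt := by
  intro G _ X E hX l l' g h z g' h' z' t B hll hn hn' nb nb' t1 t2 hB t3 hov
  obtain ⟨gen, r1⟩ := RS G l g h
  obtain ⟨gen', r1'⟩ := RS G l' g' h'
  obtain ⟨v1, u1, -⟩ := r1 X E hX hn z
  obtain ⟨v1', -, -⟩ := r1' X E hX hn' z'
  have vis := v1 99998 nb.dg nb.dh nb.dV nb.ng nb.nh (by push_cast; exact t1)
  have vis' := v1' 99998 nb'.dg nb'.dh nb'.dV nb'.ng nb'.nh (by push_cast; exact t3)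
  have up := u1 (3 * B) nb (up_le t2 hB)
  have hB' := big hB
  obtain ⟨η, hη, η', hη', b, b', s, s', s1, s2, s1', s2', hc⟩ :=
    AM G X E hX _ _ _ _ z z' t 1 99998 (3 * B) (1000 * B) gen gen' vis vis' (by norm_num) up
      (by omega) hov
  change Bool at b b'
  change s + 17 ≤ hh at s2
  change s' + 17 ≤ hh at s2'
  obtain ⟨w, y, f, f', sq, hf, -, -, -, -, hq, hJ, rule⟩ :=
    M G X E hX (rSys l g h).U (rSys l' g' h').U (fun i => η * (rSys l g h).Q b (s + i))
      (fun i => t * η' * (rSys l' g' h').Q b' (s' + i)) (fun i => (rSys l g h).J b (s + i))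
      (fun i => (rSys l' g' h').J b' (s' + i)) (fun i => (rSys l g h).ex b (s + i))
      (fun i => (rSys l' g' h').ex b' (s' + i)) vis.ne vis'.ne
      (fun i _ => by rw [← add_assoc, Q_succ']; simp only [mul_assoc])
      (fun i _ => by rw [← add_assoc, Q_succ']; simp only [mul_assoc])
      (fun i hi => vis.nc b (s + i) (by change _ < hh; omega)) hc
  have eJ : ∀ i, i < 12 → (rSys l g h).J b (s + i) = pat g h (s + i + off b) :=
    fun i hi => J_eq l g h b (by omega) (by omega)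
  have eJ' : ∀ i, i < 12 → (rSys l' g' h').J b' (s' + i) = pat g' h' (s' + i + off b') :=
    fun i hi => J_eq l' g' h' b' (by omega) (by omega)
  have per : ∀ i, i < 4 → _ := fun i (hi : i < 4) => rule i (i + 8) (by omega) (by omega)
    (by rw [eJ i (by omega), eJ (i + 8) (by omega)]; exact pat_congr _ _ (by omega))
    (by rw [eJ' i (by omega), eJ' (i + 8) (by omega)]; exact pat_congr _ _ (by omega))
  obtain ⟨rfl, rfl, hA⟩ := ar4 (f := f) (f' := f') (n := l.n) (n' := l'.n)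
    (A := l.code * hh + pos hh b s) (A' := l'.code * hh + pos hh b' s') (b := b) (b' := b') hf (by
      intro i i1 i2
      obtain ⟨j, rfl⟩ : ∃ j, i = j + 1 := ⟨i - 1, by omega⟩
      have a1 := (per j (by omega)).2
      have a2 := (per (j + 1) (by omega)).1
      rw [show j + 8 + 1 = j + 1 + 8 by omega] at a1
      rw [← ex_eq l g h b (by omega), ← ex_eq l g h b (by omega), ← ex_eq l' g' h' b' (by omega),
        ← ex_eq l' g' h' b' (by omega)]
      linarith)
  obtain ⟨hcode, rfl⟩ := ar5 (by omega) (by omega) hA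
  obtain rfl := hll hcode
  refine ⟨rfl, ?_⟩
  have ee : ∀ i, i < 12 → (rSys l g' h').ex b (s + i) = (rSys l g h).ex b (s + i) := fun i hi => by
    rw [ex_eq l g h b (by omega), ex_eq l g' h' b (by omega)]
  obtain ⟨i, hi, hi0⟩ := ar6 (s + off b)
  have g0 : ∀ g h : G, ∀ j, j < 2 → (rSys l g h).J b (s + (i + j)) = g := fun g h j hj => by
    rw [J_eq l g h b (by omega) (by omega)]; exact pat_g _ _ (by omega)
  have g2 : ∀ g h : G, ∀ j, 2 ≤ j → j < 4 → (rSys l g h).J b (s + (i + j)) = h :=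
    fun g h j hj hj' => by
      rw [J_eq l g h b (by omega) (by omega)]; exact pat_h _ _ (by omega) (by omega)
  obtain ⟨c1, c2⟩ := rule (i + 0) (i + 1) (by omega) (by omega)
    (by rw [g0 g h 0 (by omega), g0 g h 1 (by omega)])
    (by rw [g0 g' h' 0 (by omega), g0 g' h' 1 (by omega)])
  obtain ⟨c3, -⟩ := rule (i + 2) (i + 3) (by omega) (by omega)
    (by rw [g2 g h 2 (by omega) (by omega), g2 g h 3 (by omega) (by omega)])
    (by rw [g2 g' h' 2 (by omega) (by omega), g2 g' h' 3 (by omega) (by omega)])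
  have j0 := hJ (i + 0) (by omega)
  have j2 := hJ (i + 2) (by omega)
  simp only [ee (i + 0) (by omega), ee (i + 1) (by omega), ee (i + 2) (by omega),
    ee (i + 3) (by omega), add_sub_cancel_right] at c1 c3 j0 j2
  rw [g0 g h 0 (by omega), g0 g' h' 0 (by omega)] at j0
  rw [g2 g h 2 (by omega) (by omega), g2 g' h' 2 (by omega) (by omega)] at j2
  have d1 : sq (i + 0 + 1) = sq i := c1.symm
  have d2 : sq (i + 2) = sq i := c2.symm.trans d1
  have d3 : sq (i + 2 + 1) = sq i := c3.symm.trans d2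
  rw [d1, add_zero] at j0
  rw [d2, d3] at j2
  have hY := hq i (by omega)
  obtain ⟨Y, eY⟩ : ∃ Y, Y = w ^ sq i * y := ⟨_, rfl⟩
  have k1 : g = Y * g' * Y⁻¹ := by
    rw [eY, show w ^ sq i * y * g' * (w ^ sq i * y)⁻¹ = w ^ sq i * (y * g' * y⁻¹) * (w ^ sq i)⁻¹ by
      group, j0]
    group
  have k2 : h = Y * h' * Y⁻¹ := by
    rw [eY, show w ^ sq i * y * h' * (w ^ sq i * y)⁻¹ = w ^ sq i * (y * h' * y⁻¹) * (w ^ sq i)⁻¹ by
      group, j2]
    group
  rw [← eY] at hY
  have kQ : (rSys l g h).Q b (s + i) = Y * (rSys l g' h').Q b (s + i) * Y⁻¹ := by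
    rw [k1, k2]; exact conj_Q Y l g' h' b (s + i)
  have kr : rW l g h = Y * rW l g' h' * Y⁻¹ := by
    rw [k1, k2]; exact conj_rW l Y g' h'
  obtain ⟨a', rfl⟩ := hη'
  have kt : t = η * (rW l g h ^ a')⁻¹ * Y := by
    rw [kr, conj_zpow]
    simp only [kQ] at hY
    generalize (rSys l g' h').Q b (s + i) = Q at hY
    generalize rW l g' h' ^ a' = R at hY ⊢
    calc t = η * Y * Q * Y⁻¹ * ((η * (Y * Q * Y⁻¹))⁻¹ * (t * R * Q)) * Q⁻¹ * R⁻¹ := by group
      _ = _ := by rw [hY]; group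
  refine ⟨η * (rW l g h ^ a')⁻¹, mul_mem hη (inv_mem (Subgroup.zpow_mem_zpowers _ _)), ?_, ?_⟩
  · generalize η * (rW l g h ^ a')⁻¹ = y₀ at kt ⊢
    rw [kt, k1]; group
  · generalize η * (rW l g h ^ a')⁻¹ = y₀ at kt ⊢
    rw [kt, k2]; group

theorem haS (AS : AlongSysStmt) (RS : RSysStmt) : HaStmt := by
  intro G _ X E hX H z β l g h z' t B hM hn nb hβ t1 t2 hB hov
  obtain ⟨gen, r1⟩ := RS G l g h
  obtain ⟨v1, u1, -⟩ := r1 X E hX hn z'
  have vis := v1 β nb.dg nb.dh nb.dV nb.ng nb.nh t1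
  have up := u1 (3 * B) nb (up_le t2 hB)
  have hB' := big hB
  obtain ⟨a, ha, a₂, ha₂, a', ha', a₂', ha₂', hc⟩ := hov
  have hc' : Cr X (a' * z') (a₂' * z') (t⁻¹ * (a * z)) (t⁻¹ * (a₂ * z)) (1000 * B) := by
    simpa only [mul_assoc, inv_mul_cancel_left] using (hc.mul t⁻¹).swap
  obtain ⟨η, hη, b, s, s1, s2, hu⟩ := AS G X E hX _ _ z' a' a₂' _ _ 1 β (3 * B) (1000 * B) gen vis
    (by omega) up (by omega) ha' ha₂' hc'
  change Bool at b
  change s + 17 ≤ hh at s2
  obtain ⟨c, ec⟩ : ∃ c : ℕ → G, ∀ i, c i = t * (η * (rSys l g h).Q b (s + i)) := ⟨_, fun _ => rfl⟩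
  have hU := vis.ne
  have cs : ∀ i, c (i + 1) =
      c i * (rSys l g h).U ^ (rSys l g h).ex b (s + i) * (rSys l g h).J b (s + i) := fun i => by
    rw [ec, ec, ← add_assoc, Q_succ']; simp only [mul_assoc]
  have m1 : ∀ i, i < 13 → c i * (rSys l g h).U * (c i)⁻¹ ∈ H := fun i hi => by
    refine hM _ ⟨a, ha, a₂, ha₂, a, ha, a₂, ha₂, ?_⟩
    have := (hu i hi).mul t
    rw [ec]
    simpa only [mul_assoc, mul_inv_cancel_left, mul_inv_rev] using this
  generalize (rSys l g h).U = U at hU cs m1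
  have m2 : ∀ i, i < 12 → c i * (rSys l g h).J b (s + i) * (c i)⁻¹ ∈ H := fun i hi => by
    have a1 := m1 i (by omega)
    have a2 := m1 (i + 1) (by omega)
    rw [cs] at a2
    generalize (rSys l g h).J b (s + i) = J at a2 ⊢
    generalize (rSys l g h).ex b (s + i) = e at a2
    refine hM.inf a1 (hX.pos ?_) ?_
    · intro h0
      apply hU
      calc U = (c i)⁻¹ * (c i * U * (c i)⁻¹) * c i := by group
        _ = 1 := by rw [h0]; group
    · have a3 := mul_mem (mul_mem (inv_mem (zpow_mem a1 e)) a2) (zpow_mem a1 e)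
      rw [conj_zpow] at a3
      convert a3 using 1
      group
  have m3 : ∀ i, i ≤ 12 → c i * (c 0)⁻¹ ∈ H := fun i hi => by
    induction i with
    | zero => simp
    | succ i ih =>
      have a3 := mul_mem (mul_mem (zpow_mem (m1 i (by omega)) ((rSys l g h).ex b (s + i)))
        (m2 i (by omega))) (ih (by omega))
      rw [conj_zpow] at a3
      rw [cs]
      convert a3 using 1
      group
  have m4 : ∀ i, i < 12 → c 0 * (rSys l g h).J b (s + i) * (c 0)⁻¹ ∈ H := fun i hi => by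
    have a3 := mul_mem (mul_mem (inv_mem (m3 i (by omega))) (m2 i hi)) (m3 i (by omega))
    convert a3 using 1
    group
  obtain ⟨i, hi, hi0⟩ := ar6 (s + off b)
  have kg := m4 i (by omega)
  have kh := m4 (i + 2) (by omega)
  rw [J_eq l g h b (by omega) (by omega), pat_g _ _ (by omega)] at kg
  rw [J_eq l g h b (by omega) (by omega), pat_h _ _ (by omega) (by omega)] at kh
  obtain ⟨K, hK⟩ : ∃ K : Subgroup G, ∀ y, y ∈ K ↔ c 0 * y * (c 0)⁻¹ ∈ H :=
    ⟨H.comap (MulAut.conj (c 0)).toMonoidHom, fun _ => Iff.rfl⟩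
  have kg' := (hK g).2 kg
  have kh' := (hK h).2 kh
  have kr : rW l g h ∈ K := by rw [← ev_rW]; exact ev_mem kg' kh' _
  have kq : η * (rSys l g h).Q b (s + 0) ∈ K :=
    mul_mem ((Subgroup.zpowers_le.2 kr) hη) (Q_mem kg' kh' l b _)
  have fin : ∀ y ∈ K, t * y * t⁻¹ ∈ H := fun y hy => by
    have := (hK _).1 (mul_mem (mul_mem (inv_mem kq) hy) kq)
    rw [ec] at this
    convert this using 1
    group
  exact ⟨fin g kg', fin h kh'⟩

end Pool.Agent.MP_5c28a4_al.H19
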